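import Pool.Agent.Helper35.HG.StB

/-!
# Project HG, module CHR: chain rule for jets
-/

set_option autoImplicit false

namespace Helper29.HG

open Helper35.HG Helper35.HC Helper35.HSF Helper35.MS Helper35.PI Helper35.PI2 Helper32.CL
open scoped BigOperators Topology ContDiff
open Filter

theorem hCHR : StCHR := by
  intro n z ψ ψ' ψ'' φ hφ hψ
  have hcd : ContDiffAt ℝ 2 (fun z => ψ (φ z)) z := hψ.c.comp z hφ
  have hne : (2 : WithTop ℕ∞) ≠ ∞ := by decide
  have hev : ∀ᶠ y in 𝓝 z, ContDiffAt ℝ 2 φ y := hφ.eventually hne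
  have hev2 : ∀ᶠ y in 𝓝 z, HasDerivAt ψ (ψ' (φ y)) (φ y) := hφ.continuousAt.eventually hψ.d1
  have hfd : ∀ᶠ y in 𝓝 z, HasFDerivAt (fun z => ψ (φ z)) (ψ' (φ y) • fderiv ℝ φ y) y := by
    filter_upwards [hev, hev2] with y h1 h2
    have hd : HasFDerivAt φ (fderiv ℝ φ y) y := (h1.differentiableAt (by decide)).hasFDerivAt
    exact h2.comp_hasFDerivAt y hd
  have hz := hfd.self_of_nhds
  have hjg : ∀ k, jg (fun z => ψ (φ z)) z k = ψ' (φ z) * jg φ z k := by
    intro k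
    unfold jg
    rw [hz.fderiv]
    rfl
  have hjt : jt (fun z => ψ (φ z)) z = ψ' (φ z) * jt φ z := by
    unfold jt
    rw [hz.fderiv]
    rfl
  have hφd : HasFDerivAt φ (fderiv ℝ φ z) z := (hφ.differentiableAt (by decide)).hasFDerivAt
  have h1 : HasFDerivAt (fun y => ψ' (φ y)) (ψ'' (φ z) • fderiv ℝ φ z) z :=
    hψ.d2.comp_hasFDerivAt z hφd
  have hjgg : ∀ k, jgg (fun z => ψ (φ z)) z k k =
      ψ' (φ z) * jgg φ z k k + ψ'' (φ z) * jg φ z k ^ 2 := by
    intro k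
    have hloc : (fun y => jg (fun z => ψ (φ z)) y k) =ᶠ[𝓝 z] fun y => ψ' (φ y) * jg φ y k := by
      filter_upwards [hfd] with y hy
      unfold jg
      rw [hy.fderiv]
      rfl
    have h2 : DifferentiableAt ℝ (fderiv ℝ φ) z :=
      (hφ.fderiv_right (m := 1) (by decide)).differentiableAt (by decide)
    have h3 : DifferentiableAt ℝ (fun y => jg φ y k) z := by
      unfold jg
      exact h2.clm_apply (differentiableAt_const _)
    have h4 : HasFDerivAt (fun y => ψ' (φ y) * jg φ y k)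
        (ψ' (φ z) • fderiv ℝ (fun y => jg φ y k) z + jg φ z k • ψ'' (φ z) • fderiv ℝ φ z) z :=
      h1.mul h3.hasFDerivAt
    have h5 : jgg (fun z => ψ (φ z)) z k k =
        fderiv ℝ (fun y => ψ' (φ y) * jg φ y k) z (ee k, 0) := by
      unfold jgg
      rw [jg, hloc.fderiv_eq]
    rw [h5, h4.fderiv]
    change ψ' (φ z) * (fderiv ℝ (fun y => jg φ y k) z (ee k, 0)) +
      jg φ z k * (ψ'' (φ z) * fderiv ℝ φ z (ee k, 0)) = _
    have h6 : fderiv ℝ (fun y => jg φ y k) z (ee k, 0) = jgg φ z k k := rfl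
    have h7 : fderiv ℝ φ z (ee k, 0) = jg φ z k := rfl
    rw [h6, h7]
    ring
  refine ⟨hcd, hjg, ?_⟩
  unfold jh
  rw [hjt, mul_sub, Finset.mul_sum, Finset.mul_sum, sub_sub, ← Finset.sum_add_distrib]
  congr 1
  exact Finset.sum_congr rfl fun k _ => hjgg k

end Helper29.HG
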