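import Pool.Agent.Helper35.HG.StA

/-!
# Project HG, module SPX: one symmetric matrix in the region
-/

set_option autoImplicit false

namespace Helper29.HG

open Helper35.HG Helper35.HC Helper35.HSF Helper35.MS Helper35.PI Helper35.PI2 Helper32.CL
open scoped BigOperators

variable {n : ℕ}

private theorem bil_sw (X : Fin n → Fin n → ℝ) (hX : SymS X) (c d : Fin n → ℝ) :
    bil X d c = bil X c d := by
  unfold bil
  rw [Finset.sum_comm]
  refine Finset.sum_congr rfl fun i _ => Finset.sum_congr rfl fun j _ => ?_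
  rw [hX j i]
  ring

private theorem bil_uv (X : Fin n → Fin n → ℝ) (hX : SymS X) (c d : Fin n → ℝ) (a : ℝ) :
    bil X (fun i => a * (c i + d i)) (fun i => a * (c i - d i)) =
      a ^ 2 * (bil X c c - bil X d d) := by
  have h : bil X (fun i => a * (c i + d i)) (fun i => a * (c i - d i)) =
      a ^ 2 * (bil X c c - bil X c d + bil X d c - bil X d d) := by
    unfold bil
    rw [← Finset.sum_sub_distrib, ← Finset.sum_add_distrib, ← Finset.sum_sub_distrib,
      Finset.mul_sum]
    refine Finset.sum_congr rfl fun i _ => ?_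
    rw [← Finset.sum_sub_distrib, ← Finset.sum_add_distrib, ← Finset.sum_sub_distrib,
      Finset.mul_sum]
    refine Finset.sum_congr rfl fun j _ => ?_
    ring
  rw [h, bil_sw X hX c d]
  ring

private theorem op_uv {c d : Fin n → ℝ} (h : OP c d) {a : ℝ} (ha : a ^ 2 = 1 / 2) :
    OP (fun i => a * (c i + d i)) (fun i => a * (c i - d i)) := by
  obtain ⟨h1, h2, h3⟩ := h
  have e1 : ∑ i, (a * (c i + d i)) ^ 2 =
      a ^ 2 * (∑ i, c i ^ 2 + 2 * ∑ i, c i * d i + ∑ i, d i ^ 2) := by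
    rw [Finset.mul_sum (s := Finset.univ) (a := (2 : ℝ)), ← Finset.sum_add_distrib,
      ← Finset.sum_add_distrib, Finset.mul_sum]
    exact Finset.sum_congr rfl fun i _ => by ring
  have e2 : ∑ i, (a * (c i - d i)) ^ 2 =
      a ^ 2 * (∑ i, c i ^ 2 - 2 * ∑ i, c i * d i + ∑ i, d i ^ 2) := by
    rw [Finset.mul_sum (s := Finset.univ) (a := (2 : ℝ)), ← Finset.sum_sub_distrib,
      ← Finset.sum_add_distrib, Finset.mul_sum]
    exact Finset.sum_congr rfl fun i _ => by ring
  have e3 : ∑ i, (a * (c i + d i)) * (a * (c i - d i)) =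
      a ^ 2 * (∑ i, c i ^ 2 - ∑ i, d i ^ 2) := by
    rw [← Finset.sum_sub_distrib, Finset.mul_sum]
    exact Finset.sum_congr rfl fun i _ => by ring
  refine ⟨?_, ?_, ?_⟩
  · rw [e1, h1, h2, h3, ha]
    norm_num
  · rw [e2, h1, h2, h3, ha]
    norm_num
  · rw [e3, h1, h2]
    norm_num

private theorem ex_op (hn : 2 ≤ n) : ∃ c d : Fin n → ℝ, OP c d := by
  have i0 : 0 < n := by omega
  have i1 : 1 < n := by omega
  refine ⟨fun i => if i = ⟨0, i0⟩ then 1 else 0, fun i => if i = ⟨1, i1⟩ then 1 else 0,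
    ?_, ?_, ?_⟩
  · rw [Finset.sum_eq_single (⟨0, i0⟩ : Fin n)]
    · simp
    · intro b _ hb
      simp [hb]
    · intro h
      exact absurd (Finset.mem_univ _) h
  · rw [Finset.sum_eq_single (⟨1, i1⟩ : Fin n)]
    · simp
    · intro b _ hb
      simp [hb]
    · intro h
      exact absurd (Finset.mem_univ _) h
  · refine Finset.sum_eq_zero fun i _ => ?_
    by_cases h : i = ⟨0, i0⟩
    · have h' : i ≠ ⟨1, i1⟩ := by
        rw [h]
        intro h2
        have := congrArg Fin.val h2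
        simp at this
      simp [h']
    · simp [h]

theorem hSPX (hSPR : StSPR) : StSPX := by
  intro n hn X E F hX hE hF
  have hip : ∀ Z : Fin n → Fin n → ℝ, 0 ≤ ip0 Z Z := fun Z =>
    Finset.sum_nonneg fun i _ => Finset.sum_nonneg fun j _ => mul_self_nonneg _
  have hcq : ∀ Z W : Fin n → Fin n → ℝ, 0 ≤ cq Z W := fun Z W =>
    Finset.sum_nonneg fun i _ => Finset.sum_nonneg fun j _ => sq_nonneg _
  have hE' : 0 ≤ E / n * ip0 X X := mul_nonneg (div_nonneg hE (Nat.cast_nonneg n)) (hip X)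
  obtain ⟨c0, d0, h0⟩ := ex_op hn
  have hG : 0 ≤ F - E / n * ip0 X X := by
    have := hF c0 d0 h0
    have h2 := sq_nonneg (bil X c0 d0)
    linarith
  have hn0 : (0 : ℝ) < n := by
    have : 0 < n := by omega
    exact_mod_cast this
  have hs2 : Real.sqrt (F - E / n * ip0 X X) ^ 2 = F - E / n * ip0 X X := Real.sq_sqrt hG
  have hspr : ∀ c d, OP c d → bil X c c - bil X d d ≤ 2 * Real.sqrt (F - E / n * ip0 X X) := by
    intro c d hcd
    have ha : (1 / Real.sqrt 2) ^ 2 = 1 / 2 := by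
      rw [div_pow, one_pow, Real.sq_sqrt (by norm_num)]
    have h1 := hF _ _ (op_uv hcd ha)
    rw [bil_uv X hX c d, ha] at h1
    have h2 : (1 / 2 * (bil X c c - bil X d d)) ^ 2 ≤ F - E / n * ip0 X X := by linarith
    have h3 := Real.le_sqrt_of_sq_le h2
    linarith
  obtain ⟨h1, h2⟩ := hSPR n hn X _ hX (Real.sqrt_nonneg (F - E / n * ip0 X X)) hspr
  rw [hs2] at h1
  refine ⟨hip X, by linarith, ?_, ?_⟩
  · have h3 : (n : ℝ) * (F - E / n * ip0 X X) = n * F - E * ip0 X X := by
      field_simp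
    rw [h3] at h1
    linarith
  · intro Y hY
    obtain ⟨h4, h5⟩ := h2 Y hY
    rw [hs2] at h4
    exact ⟨h4, h5, hcq X Y⟩

end Helper29.HG
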